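import Pool.Agent.helper53.AU.SpecG3

/-!
# Project au: module G3 (the number of involutions is 1 modulo `|oddPart A|`)
-/

namespace Pool.Agent.helper53.AU

open scoped Classical

/-- a finite set on which all stabilisers have index `b` -/
theorem G3_dvd (G Y : Type) [Group G] [MulAction G Y] [Finite G] [Finite Y] (b : ℕ)
    (h : ∀ y : Y, (MulAction.stabilizer G y).index = b) : b ∣ Nat.card Y := by
  have e := Nat.card_congr (MulAction.selfEquivSigmaOrbitsQuotientStabilizer G Y)
  rw [e]
  have : Fintype (Quotient (MulAction.orbitRel G Y)) := Fintype.ofFinite _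
  rw [Nat.card_sigma]
  apply Finset.dvd_sum
  intro ω _
  have := h (Quotient.out ω)
  rw [Subgroup.index_eq_card] at this
  rw [this]

/-- in a finite cyclic group an element lies in the subgroup generated by an element of the same
order -/
theorem G3_zp (G : Type) [Group G] [Finite G] (hc : IsCyclic G) (x y : G)
    (h : orderOf y = orderOf x) : y ∈ Subgroup.zpowers x := by
  have : Fintype G := Fintype.ofFinite G
  have hpos : 0 < orderOf x := orderOf_pos x
  have hle := IsCyclic.card_pow_eq_one_le (α := G) hpos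
  have hsub : (Subgroup.zpowers x : Set G).toFinset ⊆
      (Finset.univ.filter fun a : G => a ^ orderOf x = 1) := by
    intro a ha
    rw [Set.mem_toFinset] at ha
    obtain ⟨k, rfl⟩ := ha
    rw [Finset.mem_filter]
    refine ⟨Finset.mem_univ _, ?_⟩
    show (x ^ k) ^ orderOf x = 1
    rw [← zpow_natCast, ← zpow_mul, mul_comm, zpow_mul, zpow_natCast, pow_orderOf_eq_one, one_zpow]
  have hcard : (Subgroup.zpowers x : Set G).toFinset.card = orderOf x := by
    rw [Set.toFinset_card]
    exact Fintype.card_zpowers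
  have heq := Finset.eq_of_subset_of_card_le hsub (by rw [hcard]; exact hle)
  have hy : y ∈ (Finset.univ.filter fun a : G => a ^ orderOf x = 1) := by
    rw [Finset.mem_filter]
    exact ⟨Finset.mem_univ _, by rw [← h, pow_orderOf_eq_one]⟩
  rw [← heq, Set.mem_toFinset] at hy
  exact hy

/-- conjugation action of a subgroup on the involutions different from a given centralised one -/
@[reducible] def G3_act {L : Type} [Group L] (B : Subgroup L) (τ : L)
    (hτ : ∀ b ∈ B, b * τ = τ * b) : MulAction B {s : L // IsInv s ∧ s ≠ τ} where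
  smul b s := ⟨(b : L) * s.1 * (b : L)⁻¹, by
    obtain ⟨s, ⟨h1, h2⟩, h3⟩ := s
    refine ⟨⟨?_, ?_⟩, ?_⟩
    · calc (b : L) * s * (b : L)⁻¹ * ((b : L) * s * (b : L)⁻¹) = (b : L) * (s * s) * (b : L)⁻¹ := by group
        _ = 1 := by rw [h1]; group
    · intro h
      apply h2
      calc s = (b : L)⁻¹ * ((b : L) * s * (b : L)⁻¹) * b := by group
        _ = 1 := by rw [h]; group
    · intro h
      apply h3
      calc s = (b : L)⁻¹ * ((b : L) * s * (b : L)⁻¹) * b := by group
        _ = (b : L)⁻¹ * (τ * b) := by rw [h]; group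
        _ = τ := by rw [← hτ b b.2]; group⟩
  one_smul s := by
    apply Subtype.ext
    show (1 : L) * s.1 * (1 : L)⁻¹ = s.1
    group
  mul_smul b c s := by
    apply Subtype.ext
    show ((b : L) * (c : L)) * s.1 * ((b : L) * (c : L))⁻¹ =
      (b : L) * ((c : L) * s.1 * (c : L)⁻¹) * (b : L)⁻¹
    group

theorem G3 (hG2 : G2_stmt) (hP1 : P1_stmt) (hP5 : P5_stmt) (hPLL : PLL_stmt) (hAB : AB_stmt) :
    G3_stmt := by
  intro L Ω _ _ A t h ht hinv h2
  have hPL := hPLL L Ω A h
  have := h.finL
  have := h.finΩ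
  have := h.cyc
  obtain ⟨⟨τ, hτA, hτ⟩, hconj⟩ := hP1 L Ω A hPL
  obtain ⟨hab1, -, -, -, -, hab6, -, -, -, -⟩ := hAB L A h.cyc
  have hcomm : ∀ a ∈ A, ∀ b ∈ A, a * b = b * a := by
    intro a ha b hb
    have := (IsCyclic.isMulCommutative (α := A)).is_comm.comm ⟨a, ha⟩ ⟨b, hb⟩
    exact congrArg Subtype.val this
  have hBτ : ∀ b ∈ oddPart A, b * τ = τ * b := fun b hb => hcomm b ((hab1 b).1 hb).1 τ hτA
  let _ := G3_act (oddPart A) τ hBτ
  have hstab : ∀ y : {s : L // IsInv s ∧ s ≠ τ},
      (MulAction.stabilizer (oddPart A) y).index = Nat.card (oddPart A) := by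
    intro y
    have hbot : MulAction.stabilizer (oddPart A) y = ⊥ := by
      by_contra hne
      -- an element of prime order
      have hcard : Nat.card (MulAction.stabilizer (oddPart A) y) ≠ 1 := by
        intro h1
        exact hne ((Subgroup.card_eq_one).1 h1)
      obtain ⟨p, hp, hpd⟩ := Nat.exists_prime_and_dvd hcard
      have := Fact.mk hp
      obtain ⟨x, hx⟩ := exists_prime_orderOf_dvd_card' p hpd
      obtain ⟨⟨ρ, hρB⟩, hρstab⟩ := x
      have hρord : orderOf ρ = p := by
        rw [← hx]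
        rw [← Subgroup.orderOf_coe (⟨⟨ρ, hρB⟩, hρstab⟩ : MulAction.stabilizer (oddPart A) y)]
        rw [← Subgroup.orderOf_coe]
      have hρs : ρ * y.1 * ρ⁻¹ = y.1 := congrArg Subtype.val (MulAction.mem_stabilizer_iff.1 hρstab)
      obtain ⟨s, hs, hsτ⟩ := y
      simp only at hρs
      obtain ⟨g, hg⟩ := hconj τ s hτ hs
      -- `g⁻¹ ρ g` commutes with `τ`
      have hcτ : (g⁻¹ * ρ * g) * τ = τ * (g⁻¹ * ρ * g) := by
        have h1 : ρ * s = s * ρ := by
          calc ρ * s = ρ * s * ρ⁻¹ * ρ := by group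
            _ = s * ρ := by rw [hρs]
        rw [← hg] at h1
        calc (g⁻¹ * ρ * g) * τ = g⁻¹ * (ρ * (g * τ * g⁻¹)) * g := by group
          _ = g⁻¹ * (g * τ * g⁻¹ * ρ) * g := by rw [h1]
          _ = τ * (g⁻¹ * ρ * g) := by group
      have hpd2 : p ∣ Nat.card (oddPart A) :=
        dvd_trans hpd (Subgroup.card_subgroup_dvd_card _)
      have hpow : (g⁻¹ * ρ * g) ^ (Nat.card (oddPart A)) = 1 := by
        have h1 : ρ ^ (Nat.card (oddPart A)) = 1 := by
          rw [← orderOf_dvd_iff_pow_eq_one, hρord]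
          exact hpd2
        have h3 : (g⁻¹ * ρ * g) ^ (Nat.card (oddPart A)) = g⁻¹ * ρ ^ (Nat.card (oddPart A)) * g := by
          have := conj_pow (i := Nat.card (oddPart A)) (a := g⁻¹) (b := ρ)
          rw [inv_inv] at this
          exact this
        rw [h3, h1]
        group
      have hmem := (hP5 L Ω A hPL τ hτA hτ).2.2 _ hcτ hpow
      -- the subgroups of order `p` of `oddPart A` agree
      have hz : ∃ k : ℤ, ρ ^ k = g⁻¹ * ρ * g := by
        have hord : orderOf (g⁻¹ * ρ * g) = p := by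
          rw [← hρord]
          have h1 : g⁻¹ * ρ * g = MulAut.conj g⁻¹ ρ := by
            rw [MulAut.conj_apply, inv_inv]
          rw [h1]
          exact orderOf_injective (MulAut.conj g⁻¹).toMonoidHom (MulAut.conj g⁻¹).injective ρ
        have h1 : (⟨g⁻¹ * ρ * g, hmem⟩ : oddPart A) ∈ Subgroup.zpowers (⟨ρ, hρB⟩ : oddPart A) := by
          apply G3_zp (oddPart A) hab6
          rw [← Subgroup.orderOf_coe, ← Subgroup.orderOf_coe]
          rw [hord, hρord]
        obtain ⟨k, hk⟩ := h1
        exact ⟨k, congrArg Subtype.val hk⟩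
      have hg2 := (hG2 L Ω A t τ ρ h ht hinv h2 hτA hτ hρB (by rw [hρord]; exact hp) g⁻¹).1 (by
        rw [inv_inv]
        obtain ⟨k, hk⟩ := hz
        exact ⟨k, hk⟩)
      apply hsτ
      rw [← hg]
      calc g * τ * g⁻¹ = g * (τ * g⁻¹) := by group
        _ = g * (g⁻¹ * τ) := by rw [hg2]
        _ = τ := by group
    rw [hbot, Subgroup.index_bot]
  have hd := G3_dvd (oddPart A) {s : L // IsInv s ∧ s ≠ τ} _ hstab
  have hcount : Nat.card {s : L // IsInv s} = Nat.card {s : L // IsInv s ∧ s ≠ τ} + 1 := by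
    have e : {s : L | IsInv s} = insert τ {s : L | IsInv s ∧ s ≠ τ} := by
      ext s
      simp only [Set.mem_insert_iff, Set.mem_ofPred_eq]
      constructor
      · intro hs
        by_cases h1 : s = τ
        · exact Or.inl h1
        · exact Or.inr ⟨hs, h1⟩
      · rintro (rfl | h1)
        · exact hτ
        · exact h1.1
    have h1 : Nat.card {s : L // IsInv s} = ({s : L | IsInv s}).ncard := rfl
    have h3 : Nat.card {s : L // IsInv s ∧ s ≠ τ} = ({s : L | IsInv s ∧ s ≠ τ}).ncard := rfl
    rw [h1, h3, e, Set.ncard_insert_of_notMem (fun hh => hh.2 rfl) (Set.toFinite _)]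
  rw [hcount]
  have h4 : Nat.card {s : L // IsInv s ∧ s ≠ τ} ≡ 0 [MOD Nat.card (oddPart A)] :=
    (Nat.modEq_zero_iff_dvd).2 hd
  have h5 := Nat.ModEq.add_right 1 h4
  rwa [zero_add] at h5

end Pool.Agent.helper53.AU
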