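import Pool.Agent.helper53.AU.SpecG2

/-!
# Project au: module P3 (the centraliser of an involution is transitive)
-/

namespace Pool.Agent.helper53.AU

open scoped Classical

/-- `T ∪ T t` for a subgroup `T` normalised by the involution `t`. -/
def P3_K {L : Type} [Group L] (T : Subgroup L) (t : L) (ht : t * t = 1)
    (hn : ∀ a ∈ T, t * a * t⁻¹ ∈ T) : Subgroup L where
  carrier := {g | g ∈ T ∨ g * t ∈ T}
  one_mem' := Or.inl T.one_mem
  mul_mem' := by
    have hti : t⁻¹ = t := inv_eq_of_mul_eq_one_left ht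
    rintro g h (hg | hg) (hh | hh)
    · exact Or.inl (T.mul_mem hg hh)
    · right
      rw [mul_assoc]
      exact T.mul_mem hg hh
    · right
      have h1 := hn h hh
      have h2 : g * h * t = (g * t) * (t * h * t⁻¹) := by
        rw [hti]
        calc g * h * t = g * 1 * h * t := by rw [mul_one]
          _ = g * (t * t) * h * t := by rw [ht]
          _ = (g * t) * (t * h * t) := by group
      rw [h2]
      exact T.mul_mem hg h1
    · left
      have h1 := hn (h * t) hh
      have h2 : g * h = (g * t) * (t * (h * t) * t⁻¹) := by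
        calc g * h = g * 1 * h := by rw [mul_one]
          _ = g * (t * t) * h := by rw [ht]
          _ = (g * t) * (t * (h * t) * t⁻¹) := by group
      rw [h2]
      exact T.mul_mem hg h1
  inv_mem' := by
    have hti : t⁻¹ = t := inv_eq_of_mul_eq_one_left ht
    rintro g (hg | hg)
    · exact Or.inl (T.inv_mem hg)
    · right
      have h1 := hn _ (T.inv_mem hg)
      have h2 : g⁻¹ * t = t * (g * t)⁻¹ * t⁻¹ := by
        rw [mul_inv_rev, hti]
        calc g⁻¹ * t = 1 * g⁻¹ * t := by rw [one_mul]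
          _ = (t * t) * g⁻¹ * t := by rw [ht]
          _ = t * (t * g⁻¹) * t := by group
      rw [h2]
      exact h1

theorem P3_card {L : Type} [Group L] [Finite L] (T : Subgroup L) (t : L) (ht : t * t = 1)
    (hn : ∀ a ∈ T, t * a * t⁻¹ ∈ T) (htT : t ∉ T) :
    Nat.card (P3_K T t ht hn) = 2 * Nat.card T := by
  have hle : T ≤ P3_K T t ht hn := fun g hg => Or.inl hg
  have htK : t ∈ P3_K T t ht hn := by
    right
    rw [ht]
    exact T.one_mem
  have hidx : (T.subgroupOf (P3_K T t ht hn)).index = 2 := by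
    rw [Subgroup.index_eq_two_iff]
    refine ⟨⟨t, htK⟩, ?_⟩
    rintro ⟨g, hg⟩
    simp only [Subgroup.mem_subgroupOf, Subgroup.coe_mul]
    by_cases h1 : g ∈ T
    · right
      refine ⟨h1, fun h2 => htT ?_⟩
      have h3 := T.mul_mem (T.inv_mem h1) h2
      rwa [← mul_assoc, inv_mul_cancel, one_mul] at h3
    · left
      exact ⟨hg.resolve_left h1, h1⟩
  have h2 : Nat.card (T.subgroupOf (P3_K T t ht hn)) = Nat.card T :=
    Nat.card_congr (Subgroup.subgroupOfEquivOfLe hle).toEquiv
  have h3 := Subgroup.card_mul_index (T.subgroupOf (P3_K T t ht hn))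
  rw [hidx, h2] at h3
  omega

theorem P3_aux (hAB : AB_stmt) (L Ω : Type) [Group L] [MulAction L Ω] (A : Subgroup L)
    (h : PL L Ω A) (τ : L) (hτA : τ ∈ A) (hτ : IsInv τ) (α β : Ω) :
    ∃ g : L, g * τ = τ * g ∧ g • α = β := by
  have := h.finL
  have := h.finΩ
  have := h.cyc
  obtain ⟨t, ht1, htA, htinv⟩ := h.dih
  obtain ⟨-, hab2, hab3, hab4, ⟨n, hab5⟩, -, -, -, -, -⟩ := hAB L A h.cyc
  have hcomm : ∀ a ∈ A, ∀ b ∈ A, a * b = b * a := by
    intro a ha b hb
    have := (IsCyclic.isMulCommutative (α := A)).is_comm.comm ⟨a, ha⟩ ⟨b, hb⟩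
    exact congrArg Subtype.val this
  set C : Subgroup L := Subgroup.centralizer ({τ} : Set L) with hC
  have hCmem : ∀ g : L, g ∈ C ↔ g * τ = τ * g := by
    intro g
    rw [hC, Subgroup.mem_centralizer_singleton_iff]
  have hAC : A ≤ C := fun a ha => (hCmem a).2 (hcomm a ha τ hτA)
  have hτ2 : τ⁻¹ = τ := inv_eq_of_mul_eq_one_left hτ.1
  have htC : t ∈ C := by
    have h1 := htinv τ hτA ⟨1, by rw [pow_one, pow_two, hτ.1]⟩
    rw [hτ2] at h1
    rw [hCmem]
    calc t * τ = t * τ * t⁻¹ * t := by group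
      _ = τ * t := by rw [h1]
  by_contra hcon
  have hβ : β ∉ MulAction.orbit C α := by
    rintro ⟨g, hg⟩
    exact hcon ⟨g, (hCmem g).1 g.2, hg⟩
  -- all `A`-orbits have `|A|` elements
  have horbA : ∀ γ : Ω, Nat.card (MulAction.orbit A γ) = Nat.card A := by
    intro γ
    have e := Nat.card_congr (MulAction.orbitProdStabilizerEquivGroup A γ)
    rw [Nat.card_prod] at e
    have : Nat.card (MulAction.stabilizer A γ) = 1 := by
      rw [Subgroup.card_eq_one, eq_bot_iff]
      intro a ha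
      have := h.semireg a a.2 γ ha
      rw [Subgroup.mem_bot]
      exact Subtype.ext this
    rw [this, mul_one] at e
    exact e
  -- the orbit of `α` under `C` has `|A|` elements
  have hsubA : ∀ γ : Ω, MulAction.orbit A γ ⊆ MulAction.orbit C γ := by
    rintro γ _ ⟨a, rfl⟩
    exact ⟨⟨a, hAC a.2⟩, rfl⟩
  have hdisj : Disjoint (MulAction.orbit C α) (MulAction.orbit A β) := by
    rw [Set.disjoint_left]
    intro x hx hx'
    have h1 := hsubA β hx'
    apply hβ
    have e1 := MulAction.orbit_eq_iff.2 hx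
    have e2 := MulAction.orbit_eq_iff.2 h1
    rw [← e1, e2]
    exact MulAction.mem_orbit_self β
  have hcardC : Nat.card (MulAction.orbit C α) = Nat.card A := by
    apply le_antisymm
    · have h1 : Nat.card (MulAction.orbit C α) + Nat.card (MulAction.orbit A β) ≤ Nat.card Ω := by
        rw [Nat.card_coe_set_eq, Nat.card_coe_set_eq,
          ← Set.ncard_union_eq hdisj (Set.toFinite _) (Set.toFinite _), ← Set.ncard_univ]
        exact Set.ncard_le_ncard (Set.subset_univ _) (Set.toFinite _)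
      rw [horbA, ← h.cardA] at h1
      omega
    · rw [← horbA α, Nat.card_coe_set_eq, Nat.card_coe_set_eq]
      exact Set.ncard_le_ncard (hsubA α) (Set.toFinite _)
  -- the 2-group
  set T := twoPart A with hT
  have hTA : T ≤ A := fun x hx => ((hab2 x).1 hx).1
  have hn : ∀ a ∈ T, t * a * t⁻¹ ∈ T := by
    intro a ha
    rw [htinv a (hTA ha) ((hab2 a).1 ha).2]
    exact T.inv_mem ha
  have htT : t ∉ T := fun hh => htA (hTA hh)
  have hK := P3_card T t ht1 hn htT
  set K := P3_K T t ht1 hn with hKdef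
  have hKC : K ≤ C := by
    rintro g (hg | hg)
    · exact hAC (hTA hg)
    · have h1 := C.mul_mem (hAC (hTA hg)) (C.inv_mem htC)
      rwa [mul_assoc, mul_inv_cancel, mul_one] at h1
  have hdvd1 : Nat.card K ∣ Nat.card C := Subgroup.card_dvd_of_le hKC
  have e := Nat.card_congr (MulAction.orbitProdStabilizerEquivGroup C α)
  rw [Nat.card_prod, hcardC] at e
  -- the stabiliser in `C` has order prime to `2`
  have hstab : Nat.card (MulAction.stabilizer C α) ∣ Nat.card (MulAction.stabilizer L α) := by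
    have h1 : (MulAction.stabilizer C α).map C.subtype ≤ MulAction.stabilizer L α := by
      rintro _ ⟨x, hx, rfl⟩
      exact hx
    have h2 := Subgroup.card_dvd_of_le h1
    rwa [Subgroup.card_map_of_injective C.subtype_injective] at h2
  have hcop : Nat.Coprime (2 ^ (n + 1)) (Nat.card (MulAction.stabilizer C α)) := by
    apply Nat.Coprime.pow_left
    have h1 := h.copr α
    have h2 : Nat.Coprime (Nat.card (MulAction.stabilizer C α)) (Nat.card Ω) :=
      Nat.Coprime.coprime_dvd_left hstab h1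
    have h3 : (2 : ℕ) ∣ Nat.card Ω := dvd_trans (by norm_num) h.four
    exact (Nat.Coprime.coprime_dvd_right h3 h2).symm
  have hK2 : Nat.card K = 2 ^ (n + 1) := by
    rw [hK, hab5, pow_succ, mul_comm]
  rw [← e, hK2] at hdvd1
  have hdvd2 : 2 ^ (n + 1) ∣ Nat.card A := hcop.dvd_of_dvd_mul_right hdvd1
  rw [← hab3, hab5, pow_succ, mul_comm (2 ^ n) 2] at hdvd2
  have h4 : 2 ∣ Nat.card (oddPart A) :=
    Nat.dvd_of_mul_dvd_mul_right (pow_pos (by norm_num) n) hdvd2
  have h5 := hab4
  rw [← Nat.not_even_iff_odd, even_iff_two_dvd] at h5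
  exact h5 h4

theorem P3 (hP1 : P1_stmt) (hAB : AB_stmt) : P3_stmt := by
  intro L Ω _ _ A h τ hτ α β
  obtain ⟨⟨τ₀, hτ₀A, hτ₀⟩, hconj⟩ := hP1 L Ω A h
  obtain ⟨g, hg⟩ := hconj τ₀ τ hτ₀ hτ
  obtain ⟨x, hx1, hx2⟩ := P3_aux hAB L Ω A h τ₀ hτ₀A hτ₀ (g⁻¹ • α) (g⁻¹ • β)
  refine ⟨g * x * g⁻¹, ?_, ?_⟩
  · rw [← hg]
    calc g * x * g⁻¹ * (g * τ₀ * g⁻¹) = g * (x * τ₀) * g⁻¹ := by group
      _ = g * (τ₀ * x) * g⁻¹ := by rw [hx1]
      _ = g * τ₀ * g⁻¹ * (g * x * g⁻¹) := by group
  · rw [mul_smul, mul_smul, hx2, smul_inv_smul]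

end Pool.Agent.helper53.AU
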