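import Pool.Agent.helper87.AU.SpecQ1

/-!
# Project au: module QV0 (a function without poles is constant)
-/

namespace Pool.Agent.helper53.AU

open scoped Classical IntermediateField
open Polynomial (aeval)
open scoped IntermediateField.algebraAdjoinAdjoin

noncomputable section

/-- the place of a maximal ideal of a Dedekind domain with quotient field `F` -/
def QV0_place {k F B : Type} [Field k] [Field F] [Algebra k F] [CommRing B] [IsDedekindDomain B]
    [Algebra B F] [IsFractionRing B F]
    (hk : ∀ c : k, ∃ b : B, algebraMap B F b = algebraMap k F c)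
    (v : IsDedekindDomain.HeightOneSpectrum B) : Place k F where
  ord a := - WithZero.log (v.valuation F a)
  ord_zero := by rw [map_zero, WithZero.log_zero, neg_zero]
  ord_mul a b ha hb := by
    rw [map_mul, WithZero.log_mul ((Valuation.ne_zero_iff _).2 ha) ((Valuation.ne_zero_iff _).2 hb)]
    ring
  ord_add a b ha hb hab := by
    have h1 := (v.valuation F).map_add a b
    have ha' := (Valuation.ne_zero_iff (v.valuation F)).2 ha
    have hb' := (Valuation.ne_zero_iff (v.valuation F)).2 hb
    have hab' := (Valuation.ne_zero_iff (v.valuation F)).2 hab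
    rcases le_max_iff.1 h1 with h2 | h2
    · rw [← WithZero.log_le_log hab' ha'] at h2
      exact le_trans (min_le_left _ _) (by omega)
    · rw [← WithZero.log_le_log hab' hb'] at h2
      exact le_trans (min_le_right _ _) (by omega)
  ord_const c hc := by
    have hle : ∀ d : k, v.valuation F (algebraMap k F d) ≤ 1 := by
      intro d
      obtain ⟨b, hb⟩ := hk d
      rw [← hb]
      exact v.valuation_le_one b
    have h1 := hle c
    have h2 := hle c⁻¹
    have h3 : v.valuation F (algebraMap k F c) * v.valuation F (algebraMap k F c⁻¹) = 1 := by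
      rw [← map_mul, ← map_mul, mul_inv_cancel₀ hc, map_one, map_one]
    have h4 : v.valuation F (algebraMap k F c) = 1 := by
      apply le_antisymm h1
      calc (1 : WithZero (Multiplicative ℤ))
          = v.valuation F (algebraMap k F c) * v.valuation F (algebraMap k F c⁻¹) := h3.symm
        _ ≤ v.valuation F (algebraMap k F c) * 1 := by
            exact mul_le_mul_right h2 _
        _ = v.valuation F (algebraMap k F c) := mul_one _
    rw [h4, WithZero.log_one, neg_zero]
  exists_uniformizer := by
    obtain ⟨π, hπ⟩ := v.valuation_exists_uniformizer F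
    refine ⟨π, ?_, ?_⟩
    · rintro rfl
      rw [map_zero] at hπ
      exact WithZero.coe_ne_zero hπ.symm
    · rw [hπ, WithZero.log_exp, neg_neg]

theorem QV0_integral {k F : Type} [Field k] [Field F] [Algebra k F] (y : F) (hy : Sep k y) (f : F)
    (hf : ∀ P : Place k F, P.Ge 0 f) : IsIntegral (Algebra.adjoin k ({y} : Set F)) f := by
  obtain ⟨hy1, hy2, hy3⟩ := hy
  have hpid : IsPrincipalIdealRing (Algebra.adjoin k ({y} : Set F)) := by
    have hsurj : Function.Surjective
        ((aeval (R := k) (⟨y, Algebra.self_mem_adjoin_singleton k y⟩ :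
          Algebra.adjoin k ({y} : Set F))) : Polynomial k →ₐ[k] Algebra.adjoin k ({y} : Set F)) := by
      rintro ⟨a, ha⟩
      rw [Algebra.adjoin_singleton_eq_range_aeval] at ha
      obtain ⟨p, rfl⟩ := ha
      refine ⟨p, Subtype.ext ?_⟩
      have := (Polynomial.aeval_algHom_apply (Algebra.adjoin k ({y} : Set F)).val
        (⟨y, Algebra.self_mem_adjoin_singleton k y⟩ : Algebra.adjoin k ({y} : Set F)) p)
      exact this.symm
    exact IsPrincipalIdealRing.of_surjective
      ((aeval (R := k) (⟨y, Algebra.self_mem_adjoin_singleton k y⟩ :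
          Algebra.adjoin k ({y} : Set F))) : Polynomial k →ₐ[k] Algebra.adjoin k ({y} : Set F)).toRingHom
      hsurj
  have hded : IsDedekindDomain (Algebra.adjoin k ({y} : Set F)) := inferInstance
  have hB := integralClosure.isDedekindDomain (Algebra.adjoin k ({y} : Set F)) k⟮y⟯ F
  have hBF : IsFractionRing (integralClosure (Algebra.adjoin k ({y} : Set F)) F) F :=
    integralClosure.isFractionRing_of_finite_extension k⟮y⟯ F
  have hk : ∀ c : k, ∃ b : integralClosure (Algebra.adjoin k ({y} : Set F)) F,
      algebraMap (integralClosure (Algebra.adjoin k ({y} : Set F)) F) F b = algebraMap k F c := by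
    intro c
    refine ⟨algebraMap (Algebra.adjoin k ({y} : Set F))
      (integralClosure (Algebra.adjoin k ({y} : Set F)) F)
        (algebraMap k (Algebra.adjoin k ({y} : Set F)) c), rfl⟩
  have hmem := IsDedekindDomain.HeightOneSpectrum.mem_integers_of_valuation_le_one
    (R := integralClosure (Algebra.adjoin k ({y} : Set F)) F) F f (by
      intro v
      rcases hf (QV0_place hk v) with rfl | h1
      · rw [map_zero]
        exact zero_le_one
      · by_cases hf0 : f = 0
        · rw [hf0, map_zero]
          exact zero_le_one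
        have h2 : WithZero.log (v.valuation F f) ≤ 0 := by
          have h3 : 0 ≤ - WithZero.log (v.valuation F f) := h1
          omega
        rw [← WithZero.log_one, WithZero.log_le_log ((Valuation.ne_zero_iff _).2 hf0) one_ne_zero]
          at h2
        exact h2)
  obtain ⟨b, hb⟩ := hmem
  rw [← hb]
  exact b.2

theorem QV0_coeff {k F : Type} [Field k] [Field F] [Algebra k F] (y : F)
    (K : IntermediateField k F) (hK : K = k⟮y⟯) (f : F)
    (hf : IsIntegral (Algebra.adjoin k ({y} : Set F)) f) (i : ℕ) :
    ((minpoly K f).coeff i : F) ∈ Algebra.adjoin k ({y} : Set F) := by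
  subst hK
  have hpid : IsPrincipalIdealRing (Algebra.adjoin k ({y} : Set F)) := by
    have hsurj : Function.Surjective
        ((aeval (R := k) (⟨y, Algebra.self_mem_adjoin_singleton k y⟩ :
          Algebra.adjoin k ({y} : Set F))) : Polynomial k →ₐ[k] Algebra.adjoin k ({y} : Set F)) := by
      rintro ⟨a, ha⟩
      rw [Algebra.adjoin_singleton_eq_range_aeval] at ha
      obtain ⟨p, rfl⟩ := ha
      refine ⟨p, Subtype.ext ?_⟩
      have := (Polynomial.aeval_algHom_apply (Algebra.adjoin k ({y} : Set F)).val
        (⟨y, Algebra.self_mem_adjoin_singleton k y⟩ : Algebra.adjoin k ({y} : Set F)) p)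
      exact this.symm
    exact IsPrincipalIdealRing.of_surjective
      ((aeval (R := k) (⟨y, Algebra.self_mem_adjoin_singleton k y⟩ :
          Algebra.adjoin k ({y} : Set F))) : Polynomial k →ₐ[k] Algebra.adjoin k ({y} : Set F)).toRingHom
      hsurj
  have hded : IsDedekindDomain (Algebra.adjoin k ({y} : Set F)) := inferInstance
  have h1 := minpoly.isIntegrallyClosed_eq_field_fractions' (R := Algebra.adjoin k ({y} : Set F))
    k⟮y⟯ hf
  rw [h1, Polynomial.coeff_map]
  exact ((minpoly (Algebra.adjoin k ({y} : Set F)) f).coeff i).2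

/-- `k[x] ∩ k[x⁻¹] = k` -/
theorem QV0_inter {k F : Type} [Field k] [Field F] [Algebra k F] (x : F) (hx : Transcendental k x)
    (c : F) (h1 : c ∈ Algebra.adjoin k ({x} : Set F)) (h2 : c ∈ Algebra.adjoin k ({x⁻¹} : Set F)) :
    ∃ d : k, c = algebraMap k F d := by
  have hx0 : x ≠ 0 := by
    rintro rfl
    exact hx isAlgebraic_zero
  rw [Algebra.adjoin_singleton_eq_range_aeval] at h1 h2
  obtain ⟨p, hp⟩ := h1
  obtain ⟨q, hq⟩ := h2
  have hp' : aeval x p = c := hp
  have hq' : aeval x⁻¹ q = c := hq
  have hinj := transcendental_iff_injective.1 hx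
  have : Invertible x⁻¹ := invertibleOfNonzero (inv_ne_zero hx0)
  have h3 := Polynomial.eval₂_reverse_mul_pow (algebraMap k F) x⁻¹ q
  have h4 : (⅟(x⁻¹) : F) = x := by
    rw [invOf_eq_inv, inv_inv]
  rw [h4] at h3
  have h5 : aeval x q.reverse * (x⁻¹) ^ q.natDegree = c := by
    rw [← hq', Polynomial.aeval_def, Polynomial.aeval_def]
    exact h3
  have h6 : aeval x q.reverse = aeval x (p * Polynomial.X ^ q.natDegree) := by
    rw [map_mul, map_pow, Polynomial.aeval_X, hp', ← h5, mul_assoc, ← mul_pow, inv_mul_cancel₀ hx0,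
      one_pow, mul_one]
  have h7 := hinj h6
  have h8 : p.natDegree = 0 := by
    by_cases hp0 : p = 0
    · rw [hp0, Polynomial.natDegree_zero]
    have h9 := Polynomial.reverse_natDegree_le q
    rw [h7, Polynomial.natDegree_mul hp0 (pow_ne_zero _ Polynomial.X_ne_zero),
      Polynomial.natDegree_X_pow] at h9
    omega
  obtain ⟨d, hd⟩ := Polynomial.natDegree_eq_zero.1 h8
  refine ⟨d, ?_⟩
  rw [← hp', ← hd, Polynomial.aeval_C]

theorem QV0 (hQK0 : QK0_stmt) : QV0_stmt := by
  intro k F _ _ _ _ hFF f hf
  obtain ⟨x, hx⟩ := hQK0 k F hFF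
  have hx0 : x ≠ 0 := by
    rintro rfl
    exact hx.1 isAlgebraic_zero
  have hKeq : k⟮x⁻¹⟯ = k⟮x⟯ := by
    apply le_antisymm
    · rw [IntermediateField.adjoin_simple_le_iff]
      exact k⟮x⟯.inv_mem (IntermediateField.mem_adjoin_simple_self k x)
    · rw [IntermediateField.adjoin_simple_le_iff]
      have h1 := k⟮x⁻¹⟯.inv_mem (IntermediateField.mem_adjoin_simple_self k x⁻¹)
      rwa [inv_inv] at h1
  have hxi : Sep k x⁻¹ := by
    obtain ⟨h1, h2, h3⟩ := hx
    refine ⟨?_, ?_, ?_⟩
    · intro h4
      apply h1
      have := h4.inv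
      rwa [inv_inv] at this
    · rw [hKeq]
      exact h2
    · rw [hKeq]
      exact h3
  have hi1 := QV0_integral x hx f hf
  have hi2 := QV0_integral x⁻¹ hxi f hf
  have hc : ∀ i : ℕ, ∃ d : k, ((minpoly k⟮x⟯ f).coeff i : F) = algebraMap k F d := by
    intro i
    exact QV0_inter x hx.1 _ (QV0_coeff x k⟮x⟯ rfl f hi1 i)
      (QV0_coeff x⁻¹ k⟮x⟯ hKeq.symm f hi2 i)
  choose d hd using hc
  -- the polynomial over `k`
  have hint : IsIntegral k⟮x⟯ f := by
    have := hx.2.1
    exact Algebra.IsIntegral.isIntegral f
  set m := minpoly k⟮x⟯ f with hm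
  have hmonic : m.Monic := minpoly.monic hint
  let q : Polynomial k := ∑ i ∈ Finset.range (m.natDegree + 1), Polynomial.monomial i (d i)
  have hdm : ∀ i, algebraMap k k⟮x⟯ (d i) = m.coeff i := by
    intro i
    apply Subtype.ext
    exact (hd i).symm
  have hqmap : q.map (algebraMap k k⟮x⟯) = m := by
    rw [Polynomial.map_sum]
    conv_rhs => rw [m.as_sum_range' (m.natDegree + 1) (Nat.lt_succ_self _)]
    apply Finset.sum_congr rfl
    intro i _
    rw [Polynomial.map_monomial, hdm]
  have hqmonic : q.Monic := by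
    have h1 : (q.map (algebraMap k k⟮x⟯)).Monic := by rw [hqmap]; exact hmonic
    exact Polynomial.monic_of_injective (algebraMap k k⟮x⟯).injective h1
  have hqf : aeval f q = 0 := by
    have h1 : aeval f (q.map (algebraMap k k⟮x⟯)) = 0 := by
      rw [hqmap]
      exact minpoly.aeval _ _
    rwa [Polynomial.aeval_map_algebraMap] at h1
  have hfk : IsIntegral k f := ⟨q, hqmonic, hqf⟩
  have hdeg := IsAlgClosed.degree_eq_one_of_irreducible k (minpoly.irreducible hfk)
  obtain ⟨c, hc⟩ := minpoly.mem_range_of_degree_eq_one k f hdeg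
  exact ⟨c, hc.symm⟩

end

end Pool.Agent.helper53.AU
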