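import Pool.Agent.helper75.AU.SpecW

/-!
# Project au: module QW7 (automorphisms of the curve `y² = x^(2g+1) - x`)
-/

namespace Pool.Agent.helper53.AU

open scoped Classical IntermediateField
open Polynomial (aeval)

noncomputable section

variable {k F : Type} [Field k] [Field F] [Algebra k F]

theorem QW7_alg_const (c : k) : IsAlgebraic k (algebraMap k F c) := isAlgebraic_algebraMap c

theorem QW7_fst (g : ℕ) (x y : F) (hyp : Hyp k x y (Polynomial.X ^ (2 * g + 1) - Polynomial.X))
    (a : k) (ha0 : a ≠ 0) (ha : a ^ (4 * g) = 1) :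
    Hyp k (algebraMap k F (a ^ 2) * x) (algebraMap k F a * y)
      (Polynomial.X ^ (2 * g + 1) - Polynomial.X) := by
  have heq : y ^ 2 = x ^ (2 * g + 1) - x := by simpa using hyp.eq
  have hA : (algebraMap k F a) ≠ 0 := by simpa using ha0
  have hA2 : (algebraMap k F (a ^ 2)) ≠ 0 := by simpa using ha0
  refine ⟨?_, ?_, ?_⟩
  · intro h
    apply hyp.tr
    have h1 : x = algebraMap k F (a ^ 2)⁻¹ * (algebraMap k F (a ^ 2) * x) := by
      rw [← mul_assoc, ← map_mul, inv_mul_cancel₀ (pow_ne_zero 2 ha0), map_one, one_mul]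
    rw [h1]
    exact (QW7_alg_const _).mul h
  · have h2 : aeval (algebraMap k F (a ^ 2) * x)
        (Polynomial.X ^ (2 * g + 1) - Polynomial.X : Polynomial k) =
        (algebraMap k F (a ^ 2) * x) ^ (2 * g + 1) - algebraMap k F (a ^ 2) * x := by simp
    rw [h2, mul_pow, mul_pow, heq, map_pow]
    have h3 : (algebraMap k F a ^ 2) ^ (2 * g + 1) = algebraMap k F a ^ 2 := by
      have h4 : (algebraMap k F a) ^ (4 * g) = 1 := by rw [← map_pow, ha, map_one]
      calc (algebraMap k F a ^ 2) ^ (2 * g + 1) = (algebraMap k F a) ^ (4 * g) * algebraMap k F a ^ 2 := by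
            ring
        _ = algebraMap k F a ^ 2 := by rw [h4, one_mul]
    rw [h3]
    ring
  · rw [eq_top_iff, ← hyp.gen, IntermediateField.adjoin_le_iff]
    have hx' : algebraMap k F (a ^ 2) * x ∈ IntermediateField.adjoin k
        ({algebraMap k F (a ^ 2) * x, algebraMap k F a * y} : Set F) :=
      IntermediateField.subset_adjoin _ _ (by simp)
    have hy' : algebraMap k F a * y ∈ IntermediateField.adjoin k
        ({algebraMap k F (a ^ 2) * x, algebraMap k F a * y} : Set F) :=
      IntermediateField.subset_adjoin _ _ (by simp)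
    rintro z hz
    rcases hz with rfl | hz
    · have h5 := IntermediateField.mul_mem _ (IntermediateField.algebraMap_mem
        (IntermediateField.adjoin k
        ({algebraMap k F (a ^ 2) * z, algebraMap k F a * y} : Set F)) (a ^ 2)⁻¹) hx'
      rw [← mul_assoc, ← map_mul, inv_mul_cancel₀ (pow_ne_zero 2 ha0), map_one, one_mul] at h5
      exact h5
    · rw [Set.mem_singleton_iff] at hz
      subst hz
      have h5 := IntermediateField.mul_mem _ (IntermediateField.algebraMap_mem
        (IntermediateField.adjoin k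
        ({algebraMap k F (a ^ 2) * x, algebraMap k F a * z} : Set F)) a⁻¹) hy'
      rw [← mul_assoc, ← map_mul, inv_mul_cancel₀ ha0, map_one, one_mul] at h5
      exact h5

theorem QW7_snd (g : ℕ) (x y : F) (hyp : Hyp k x y (Polynomial.X ^ (2 * g + 1) - Polynomial.X))
    (a i : k) (ha0 : a ≠ 0) (ha : a ^ (4 * g) = 1) (hi : i ^ 2 = -1) (hi0 : i ≠ 0) :
    Hyp k (algebraMap k F (a ^ 2) / x) (algebraMap k F (a * i) * y / x ^ (g + 1))
      (Polynomial.X ^ (2 * g + 1) - Polynomial.X) := by
  have heq : y ^ 2 = x ^ (2 * g + 1) - x := by simpa using hyp.eq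
  have hx0 : x ≠ 0 := by
    rintro rfl
    exact hyp.tr isAlgebraic_zero
  have hA : (algebraMap k F a) ≠ 0 := by simpa using ha0
  have hA2 : (algebraMap k F (a ^ 2)) ≠ 0 := by simpa using ha0
  refine ⟨?_, ?_, ?_⟩
  · intro h
    apply hyp.tr
    have h1 : x = algebraMap k F (a ^ 2) * (algebraMap k F (a ^ 2) / x)⁻¹ := by
      rw [inv_div]
      field_simp
    rw [h1]
    exact (QW7_alg_const _).mul h.inv
  · have h2 : aeval (algebraMap k F (a ^ 2) / x)
        (Polynomial.X ^ (2 * g + 1) - Polynomial.X : Polynomial k) =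
        (algebraMap k F (a ^ 2) / x) ^ (2 * g + 1) - algebraMap k F (a ^ 2) / x := by simp
    have h4 : (algebraMap k F a) ^ (4 * g) = 1 := by rw [← map_pow, ha, map_one]
    have h6 : (algebraMap k F i) ^ 2 = -1 := by rw [← map_pow, hi, map_neg, map_one]
    have h3 : (algebraMap k F a ^ 2) ^ (2 * g + 1) = algebraMap k F a ^ 2 := by
      calc (algebraMap k F a ^ 2) ^ (2 * g + 1) = (algebraMap k F a) ^ (4 * g) * algebraMap k F a ^ 2 := by
            ring
        _ = algebraMap k F a ^ 2 := by rw [h4, one_mul]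
    rw [h2, div_pow, div_pow, mul_pow, heq, map_mul, mul_pow, h6, map_pow, h3]
    rw [div_sub_div _ _ (pow_ne_zero _ hx0) hx0, div_eq_div_iff (pow_ne_zero _ (pow_ne_zero _ hx0))
      (mul_ne_zero (pow_ne_zero _ hx0) hx0)]
    ring
  · rw [eq_top_iff, ← hyp.gen, IntermediateField.adjoin_le_iff]
    set K := IntermediateField.adjoin k
        ({algebraMap k F (a ^ 2) / x, algebraMap k F (a * i) * y / x ^ (g + 1)} : Set F) with hK
    have hx' : algebraMap k F (a ^ 2) / x ∈ K :=
      IntermediateField.subset_adjoin _ _ (by simp)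
    have hy' : algebraMap k F (a * i) * y / x ^ (g + 1) ∈ K :=
      IntermediateField.subset_adjoin _ _ (by simp)
    have hxK : x ∈ K := by
      have h5 := K.mul_mem (K.algebraMap_mem (a ^ 2)) (K.inv_mem hx')
      have h6 : algebraMap k F (a ^ 2) * (algebraMap k F (a ^ 2) / x)⁻¹ = x := by
        rw [inv_div]
        field_simp
      rwa [h6] at h5
    have hyK : y ∈ K := by
      have h5 := K.mul_mem (K.mul_mem (K.algebraMap_mem (a * i)⁻¹) hy') (pow_mem hxK (g + 1))
      have h6 : algebraMap k F (a * i)⁻¹ * (algebraMap k F (a * i) * y / x ^ (g + 1)) * x ^ (g + 1)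
          = y := by
        have h7 : algebraMap k F (a * i)⁻¹ * algebraMap k F (a * i) = 1 := by
          rw [← map_mul, inv_mul_cancel₀ (mul_ne_zero ha0 hi0), map_one]
        rw [mul_assoc, div_mul_cancel₀ _ (pow_ne_zero _ hx0), ← mul_assoc, h7, one_mul]
      rwa [h6] at h5
    rintro z hz
    rcases hz with rfl | hz
    · exact hxK
    · rw [Set.mem_singleton_iff] at hz
      subst hz
      exact hyK

theorem QW7 (hQW2 : QW2_stmt) (hQW9 : QW9_stmt) : QW7_stmt := by
  intro k F _ _ _ _ g x y hg h4 hyp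
  have h2 : (2 * g : k) ≠ 0 := by
    intro h
    apply h4
    have : (4 * g : k) = 2 * (2 * g) := by ring
    rw [this, h, mul_zero]
  obtain ⟨hsq, hdeg⟩ := (hQW9 k).1 g (by omega) h2
  have heq : y ^ 2 = x ^ (2 * g + 1) - x := by simpa using hyp.eq
  have hx0 : x ≠ 0 := by
    rintro rfl
    exact hyp.tr isAlgebraic_zero
  have hy0 : y ≠ 0 := by
    rintro rfl
    apply hyp.tr
    refine ⟨Polynomial.X ^ (2 * g + 1) - Polynomial.X, hsq.ne_zero, ?_⟩
    have := hyp.eq
    rw [← this]
    ring
  obtain ⟨i, hi⟩ := IsAlgClosed.exists_pow_nat_eq (-1 : k) (n := 2) (by norm_num)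
  have hi0 : i ≠ 0 := by
    rintro rfl
    norm_num at hi
  have hdeg1 : 1 ≤ (Polynomial.X ^ (2 * g + 1) - Polynomial.X : Polynomial k).natDegree := by
    rw [hdeg]
    omega
  have hne : NeZero (4 * g) := ⟨by omega⟩
  have hne' : NeZero ((4 * g : ℕ) : k) := ⟨by push_cast; exact h4⟩
  have hroots : Nat.card (rootsOfUnity (4 * g) k) = 4 * g :=
    HasEnoughRootsOfUnity.natCard_rootsOfUnity k (4 * g)
  have hpow : ∀ a : rootsOfUnity (4 * g) k, ((a : kˣ) : k) ^ (4 * g) = 1 := by
    intro a
    have := (mem_rootsOfUnity (4 * g) (a : kˣ)).1 a.2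
    have h5 := congrArg Units.val this
    simpa using h5
  have hane : ∀ a : rootsOfUnity (4 * g) k, ((a : kˣ) : k) ≠ 0 := fun a => (a : kˣ).ne_zero
  have e1 : ∀ a : rootsOfUnity (4 * g) k, ∃ σ : F ≃ₐ[k] F,
      σ x = algebraMap k F (((a : kˣ) : k) ^ 2) * x ∧ σ y = algebraMap k F ((a : kˣ) : k) * y := by
    intro a
    exact hQW2 k F _ x y _ _ hsq hdeg1 hyp (QW7_fst g x y hyp _ (hane a) (hpow a))
  have e2 : ∀ a : rootsOfUnity (4 * g) k, ∃ σ : F ≃ₐ[k] F,
      σ x = algebraMap k F (((a : kˣ) : k) ^ 2) / x ∧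
      σ y = algebraMap k F (((a : kˣ) : k) * i) * y / x ^ (g + 1) := by
    intro a
    exact hQW2 k F _ x y _ _ hsq hdeg1 hyp (QW7_snd g x y hyp _ i (hane a) (hpow a) hi hi0)
  choose s1 hs1 using e1
  choose s2 hs2 using e2
  have hinj : Function.Injective (Sum.elim s1 s2) := by
    have hmapinj : Function.Injective (algebraMap k F) := (algebraMap k F).injective
    have hcross : ∀ a b : rootsOfUnity (4 * g) k, s1 a ≠ s2 b := by
      intro a b h
      have h5 := (hs1 a).1
      rw [h, (hs2 b).1] at h5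
      apply hyp.tr
      rw [div_eq_iff hx0] at h5
      have h6 : x ^ 2 = algebraMap k F (((a : kˣ) : k) ^ 2)⁻¹ * algebraMap k F (((b : kˣ) : k) ^ 2) := by
        rw [h5]
        have h7 : algebraMap k F (((a : kˣ) : k) ^ 2)⁻¹ * algebraMap k F (((a : kˣ) : k) ^ 2) = 1 := by
          rw [← map_mul, inv_mul_cancel₀ (pow_ne_zero 2 (hane a)), map_one]
        calc x ^ 2 = 1 * x ^ 2 := by ring
          _ = _ := by rw [← h7]; ring
      have h8 : IsAlgebraic k (x ^ 2) := by
        rw [h6]
        exact (QW7_alg_const _).mul (QW7_alg_const _)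
      exact IsAlgebraic.of_pow (by norm_num) h8
    intro u v huv
    rcases u with a | a <;> rcases v with b | b
    · have huv' : s1 a = s1 b := huv
      have h5 := (hs1 a).2
      rw [huv', (hs1 b).2] at h5
      have h6 := hmapinj (mul_right_cancel₀ hy0 h5)
      congr 1
      exact Subtype.ext (Units.ext h6.symm)
    · exact absurd huv (hcross a b)
    · exact absurd huv.symm (hcross b a)
    · have huv' : s2 a = s2 b := huv
      have h5 := (hs2 a).2
      rw [huv', (hs2 b).2, div_left_inj' (pow_ne_zero _ hx0)] at h5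
      have h6 := hmapinj (mul_right_cancel₀ hy0 h5)
      have h7 := mul_right_cancel₀ hi0 h6
      congr 1
      exact Subtype.ext (Units.ext h7.symm)
  have hcard := ENat.card_le_card_of_injective hinj
  have hfin : Finite (rootsOfUnity (4 * g) k ⊕ rootsOfUnity (4 * g) k) := inferInstance
  rw [ENat.card_eq_coe_natCard, Nat.card_sum, hroots] at hcard
  refine le_trans ?_ hcard
  apply le_of_eq
  congr 1
  ring

end

end Pool.Agent.helper53.AU
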