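import Pool.Agent.helper87.AU.SpecQ1

/-!
# Project au: module QZ1 (the number of zeros is at most the degree)
-/

namespace Pool.Agent.helper53.AU

open scoped Classical IntermediateField
open Polynomial (aeval)

noncomputable section

variable {k F : Type} [Field k] [Field F] [Algebra k F]

theorem QZ1_ge_aeval (P : Place k F) (z : F) (hz : P.Ge 0 z) (φ : Polynomial k) :
    P.Ge 0 (aeval z φ) := by
  rw [Polynomial.aeval_eq_sum_range]
  apply Place.Ge.sum
  intro i _
  apply Place.Ge.smul
  simpa using hz.pow i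

/-- the polynomial without constant term -/
theorem QZ1_ge_of_coeff_zero (P : Place k F) (z : F) (hz : 0 ≤ P.ord z)
    (φ : Polynomial k) (h0 : φ.coeff 0 = 0) : P.Ge (P.ord z) (aeval z φ) := by
  have h1 := Polynomial.divX_mul_X_add φ
  rw [h0, Polynomial.C_0, add_zero] at h1
  rw [← h1, map_mul, Polynomial.aeval_X]
  have h2 := (QZ1_ge_aeval P z (Or.inr hz) φ.divX).mul (P.ge_ord z)
  rwa [zero_add] at h2

theorem QZ1_ord_of_coeff_ne (P : Place k F) (z : F) (hz : 0 < P.ord z)
    (φ : Polynomial k) (h0 : φ.coeff 0 ≠ 0) : aeval z φ ≠ 0 ∧ P.ord (aeval z φ) = 0 := by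
  have h1 := Polynomial.divX_mul_X_add φ
  have h2 : aeval z φ = algebraMap k F (φ.coeff 0) + aeval z φ.divX * z := by
    conv_lhs => rw [← h1]
    rw [map_add, map_mul, Polynomial.aeval_X, Polynomial.aeval_C, add_comm]
  have hc : algebraMap k F (φ.coeff 0) ≠ 0 := by
    simpa using h0
  have hord : P.ord (algebraMap k F (φ.coeff 0)) = 0 := P.ord_const _ h0
  have h3 := (QZ1_ge_aeval P z (Or.inr hz.le) φ.divX).mul (P.ge_ord z)
  rw [zero_add] at h3
  have h4 : P.Ge (P.ord (algebraMap k F (φ.coeff 0)) + 1) (aeval z φ.divX * z) := by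
    rw [hord]
    exact h3.mono (by omega)
  have h5 := Place.ord_add_eq hc h4
  rw [h2]
  exact ⟨h5.1, by rw [h5.2, hord]⟩

theorem QZ1 (hQL1 : QL1_stmt) (hQV2 : QV2_stmt) : QZ1_stmt := by
  intro k F _ _ _ _ hFF z hz S hS
  have hz0 : z ≠ 0 := by
    rintro rfl
    exact hz (isAlgebraic_zero)
  -- a bound
  set N : ℤ := ∑ P ∈ S, P.ord z + 1 with hN
  have hNle : ∀ P ∈ S, P.ord z + 1 ≤ N := by
    intro P hP
    rw [hN]
    have := Finset.single_le_sum (f := fun P : Place k F => P.ord z)
      (fun Q hQ => (hS Q hQ).le) hP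
    omega
  -- the functions
  have hex : ∀ i : (Σ P : S, Fin ((P : Place k F).ord z).toNat), ∃ u : F,
      ∀ Q ∈ S, Q.Ge N (u - if Q = (i.1 : Place k F) then Q.unif ^ (i.2 : ℕ) else 0) := by
    intro i
    exact hQV2 k F S N fun Q => if Q = (i.1 : Place k F) then Q.unif ^ (i.2 : ℕ) else 0
  choose u hu using hex
  have hj : ∀ i : (Σ P : S, Fin ((P : Place k F).ord z).toNat),
      ((i.2 : ℕ) : ℤ) + 1 ≤ (i.1 : Place k F).ord z := by
    intro i
    have h1 := i.2.2
    have h2 := hS _ i.1.2
    omega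
  have hu1 : ∀ i : (Σ P : S, Fin ((P : Place k F).ord z).toNat),
      u i ≠ 0 ∧ (i.1 : Place k F).ord (u i) = (i.2 : ℕ) := by
    intro i
    have h1 := hu i _ i.1.2
    rw [if_pos rfl] at h1
    set P : Place k F := (i.1 : Place k F) with hP
    obtain ⟨hun0, hun1⟩ := P.unif_spec
    have hp0 : P.unif ^ (i.2 : ℕ) ≠ 0 := pow_ne_zero _ hun0
    have hpo : P.ord (P.unif ^ (i.2 : ℕ)) = (i.2 : ℕ) := by
      rw [P.ord_pow hun0, hun1, mul_one]
    have h2 : P.Ge (P.ord (P.unif ^ (i.2 : ℕ)) + 1) (u i - P.unif ^ (i.2 : ℕ)) := by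
      rw [hpo]
      apply h1.mono
      have := hNle _ i.1.2
      have := hj i
      omega
    have h3 := Place.ord_add_eq hp0 h2
    rw [add_sub_cancel] at h3
    exact ⟨h3.1, by rw [h3.2, hpo]⟩
  have hu2 : ∀ i : (Σ P : S, Fin ((P : Place k F).ord z).toNat), ∀ Q ∈ S,
      Q ≠ (i.1 : Place k F) → Q.Ge N (u i) := by
    intro i Q hQ hne
    have h1 := hu i Q hQ
    rwa [if_neg hne, sub_zero] at h1
  -- the constant terms vanish
  have hclaim : ∀ φ : (Σ P : S, Fin ((P : Place k F).ord z).toNat) → Polynomial k,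
      ∑ i, aeval z (φ i) * u i = 0 → ∀ i, (φ i).coeff 0 = 0 := by
    intro φ hφ
    by_contra hcon
    push Not at hcon
    obtain ⟨i₀, hi₀⟩ := hcon
    obtain ⟨P, j₀⟩ := i₀
    -- the least `j`
    have hexj : ∃ j : ℕ, ∃ hj : j < ((P : Place k F).ord z).toNat, (φ ⟨P, ⟨j, hj⟩⟩).coeff 0 ≠ 0 :=
      ⟨j₀, j₀.2, hi₀⟩
    obtain ⟨hj1, hj2⟩ := Nat.find_spec hexj
    have hjmin := fun m hm => Nat.find_min (m := m) hexj hm
    set j := Nat.find hexj with hjdef
    set i : (Σ P : S, Fin ((P : Place k F).ord z).toNat) := ⟨P, ⟨j, hj1⟩⟩ with hi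
    set Q : Place k F := (P : Place k F) with hQ
    have hQS : Q ∈ S := P.2
    have hQz := hS Q hQS
    obtain ⟨ha0, haord⟩ := QZ1_ord_of_coeff_ne Q z hQz (φ i) hj2
    obtain ⟨hui0, huiord⟩ := hu1 i
    have hterm0 : aeval z (φ i) * u i ≠ 0 := mul_ne_zero ha0 hui0
    have htermord : Q.ord (aeval z (φ i) * u i) = j := by
      rw [Q.ord_mul _ _ ha0 hui0, haord, zero_add]
      exact huiord
    have hrest : Q.Ge (Q.ord (aeval z (φ i) * u i) + 1)
        (∑ i' ∈ Finset.univ.erase i, aeval z (φ i') * u i') := by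
      rw [htermord]
      apply Place.Ge.sum
      intro i' hi'
      rw [Finset.mem_erase] at hi'
      have hae := QZ1_ge_aeval Q z (Or.inr hQz.le) (φ i')
      have hjN : (j : ℤ) + 1 ≤ N := by
        have := hNle Q hQS
        have := hj i
        omega
      by_cases hP' : i'.1 = P
      · obtain ⟨P', j'⟩ := i'
        simp only at hP'
        subst hP'
        obtain ⟨hu0', huord'⟩ := hu1 ⟨P', j'⟩
        have hge' : Q.Ge ((j' : ℕ) : ℤ) (u ⟨P', j'⟩) := by
          right
          exact huord'.ge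
        rcases lt_trichotomy (j' : ℕ) j with hlt | heq | hgt
        · have h0 : (φ ⟨P', j'⟩).coeff 0 = 0 := by
            by_contra h0
            exact hjmin _ hlt ⟨j'.2, h0⟩
          have h1 := QZ1_ge_of_coeff_zero Q z hQz.le _ h0
          apply (h1.mul hge').mono
          have := hj i
          omega
        · exfalso
          apply hi'.1
          rw [hi]
          congr 1
          exact Fin.ext heq
        · have h1 := hae.mul hge'
          apply h1.mono
          omega
      · have h1 := hu2 i' Q hQS (fun hh => hP' (Subtype.ext hh.symm))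
        apply (hae.mul h1).mono
        omega
    have h1 := Place.ord_add_eq hterm0 hrest
    apply h1.1
    rw [← hφ]
    exact Finset.add_sum_erase Finset.univ (fun i' => aeval z (φ i') * u i') (Finset.mem_univ i)
  -- all powers of `X` divide
  have hpow : ∀ (m : ℕ) (φ : (Σ P : S, Fin ((P : Place k F).ord z).toNat) → Polynomial k),
      ∑ i, aeval z (φ i) * u i = 0 → ∀ i, Polynomial.X ^ m ∣ φ i := by
    intro m
    induction m with
    | zero =>
      intro φ _ i
      rw [pow_zero]
      exact one_dvd _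
    | succ m ih =>
      intro φ hφ
      have h0 := hclaim φ hφ
      have hdiv : ∀ i, φ i = (φ i).divX * Polynomial.X := by
        intro i
        have h1 := Polynomial.divX_mul_X_add (φ i)
        rw [h0 i, Polynomial.C_0, add_zero] at h1
        exact h1.symm
      have hrel : ∑ i, aeval z ((φ i).divX) * u i = 0 := by
        have h1 : z * ∑ i, aeval z ((φ i).divX) * u i = 0 := by
          rw [Finset.mul_sum, ← hφ]
          apply Finset.sum_congr rfl
          intro i _
          conv_rhs => rw [hdiv i]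
          rw [map_mul, Polynomial.aeval_X]
          ring
        exact (mul_eq_zero.1 h1).resolve_left hz0
      intro i
      rw [hdiv i, pow_succ]
      exact mul_dvd_mul_right (ih (fun i => (φ i).divX) hrel i) _
  have hind : ∀ φ : (Σ P : S, Fin ((P : Place k F).ord z).toNat) → Polynomial k,
      ∑ i, aeval z (φ i) * u i = 0 → ∀ i, φ i = 0 := by
    intro φ hφ i
    by_contra hne
    have h1 := hpow ((φ i).natDegree + 1) φ hφ i
    have h2 := Polynomial.natDegree_le_of_dvd h1 hne
    rw [Polynomial.natDegree_X_pow] at h2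
    omega
  have hcard := hQL1 k F hFF z hz _ u hind
  rw [Fintype.card_sigma] at hcard
  simp only [Fintype.card_fin] at hcard
  have hsum : ∑ P ∈ S, P.ord z = ((∑ P : S, ((P : Place k F).ord z).toNat : ℕ) : ℤ) := by
    rw [← Finset.sum_coe_sort S (fun P : Place k F => P.ord z)]
    push_cast
    apply Finset.sum_congr rfl
    intro P _
    rw [Int.toNat_of_nonneg (hS _ P.2).le]
  rw [hsum]
  exact_mod_cast hcard

end

end Pool.Agent.helper53.AU
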