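import Pool.Agent.helper53.AU.SpecG2

/-!
# Project au: module X4 (2-transitive members of LL with `b = (3^c-1)/2` have `j = 0`)
-/

namespace Pool.Agent.helper53.AU

open scoped Classical

/-- a finite set on which all stabilisers have index `b` -/
theorem X4_dvd (G Y : Type) [Group G] [MulAction G Y] [Finite G] [Finite Y] (b : ℕ)
    (h : ∀ y : Y, (MulAction.stabilizer G y).index = b) : b ∣ Nat.card Y := by
  have e := Nat.card_congr (MulAction.selfEquivSigmaOrbitsQuotientStabilizer G Y)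
  rw [e]
  have : Fintype (Quotient (MulAction.orbitRel G Y)) := Fintype.ofFinite _
  rw [Nat.card_sigma]
  apply Finset.dvd_sum
  intro ω _
  have := h (Quotient.out ω)
  rw [Subgroup.index_eq_card] at this
  rw [this]

/-- 3-elements of a group `H` of the form `P : C` lie in `P` -/
theorem X4_mem {L : Type} [Group L] [Finite L] (H P : Subgroup L) (c : L) (hPH : P ≤ H)
    (hcH : c ∈ H) (hn : ∀ x ∈ H, ∀ p ∈ P, x * p * x⁻¹ ∈ P) (hc : ¬ 3 ∣ orderOf c)
    (hgen : ∀ x ∈ H, ∃ p ∈ P, ∃ n : ℕ, x = p * c ^ n) (g : L) (hg : g ∈ H) (m : ℕ)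
    (hm : g ^ (3 ^ m) = 1) : g ∈ P := by
  have hP' : (P.subgroupOf H).Normal := by
    constructor
    intro p hp x
    rw [Subgroup.mem_subgroupOf] at hp ⊢
    exact hn x x.2 p hp
  obtain ⟨p, hp, n, hgn⟩ := hgen g hg
  set q := QuotientGroup.mk' (P.subgroupOf H) with hq
  have h1 : q ⟨g, hg⟩ = q ⟨c, hcH⟩ ^ n := by
    rw [← map_pow]
    have h2 : (⟨g, hg⟩ : H) = ⟨p, hPH hp⟩ * (⟨c, hcH⟩ : H) ^ n := Subtype.ext hgn
    rw [h2, map_mul]
    have h3 : q ⟨p, hPH hp⟩ = 1 := by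
      rw [hq, QuotientGroup.mk'_apply, QuotientGroup.eq_one_iff]
      exact hp
    rw [h3, one_mul]
  have h2 : orderOf (q ⟨g, hg⟩) ∣ 3 ^ m := by
    apply orderOf_dvd_of_pow_eq_one
    rw [← map_pow]
    have : (⟨g, hg⟩ : H) ^ (3 ^ m) = 1 := Subtype.ext hm
    rw [this, map_one]
  have h3 : orderOf (q ⟨g, hg⟩) ∣ orderOf c := by
    rw [h1]
    refine dvd_trans (orderOf_pow_dvd n) ?_
    refine dvd_trans (orderOf_map_dvd q _) ?_
    rw [← Subgroup.orderOf_coe]
  have h4 : Nat.Coprime (3 ^ m) (orderOf c) :=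
    Nat.Coprime.pow_left _ ((Nat.Prime.coprime_iff_not_dvd Nat.prime_three).2 hc)
  have h5 : orderOf (q ⟨g, hg⟩) = 1 := Nat.eq_one_of_dvd_coprimes h4 h2 h3
  rw [orderOf_eq_one_iff, hq, QuotientGroup.mk'_apply, QuotientGroup.eq_one_iff] at h5
  exact h5

theorem X4_card {L : Type} [Group L] [Finite L] (H P : Subgroup L) (hP : IsPGroup 3 P)
    (hmem : ∀ g ∈ H, ∀ m : ℕ, g ^ (3 ^ m) = 1 → g ∈ P) (j b : ℕ) (hb : ¬ 3 ∣ b)
    (hH : Nat.card H = 3 ^ j * b) : Nat.card (P ⊓ H : Subgroup L) = 3 ^ j := by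
  have : Fact (Nat.Prime 3) := ⟨Nat.prime_three⟩
  have h1 : IsPGroup 3 (P ⊓ H : Subgroup L) := hP.to_le inf_le_left
  obtain ⟨k, hk⟩ := (IsPGroup.iff_card).1 h1
  have h2 : Nat.card (P ⊓ H : Subgroup L) ∣ Nat.card H := Subgroup.card_dvd_of_le inf_le_right
  rw [hk, hH] at h2
  have h3 : 3 ^ k ∣ 3 ^ j := by
    apply Nat.Coprime.dvd_of_dvd_mul_right _ h2
    exact Nat.Coprime.pow_left _ ((Nat.Prime.coprime_iff_not_dvd Nat.prime_three).2 hb)
  obtain ⟨K, hK⟩ := Sylow.exists_subgroup_card_pow_prime (G := H) 3 (n := j)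
    (by rw [hH]; exact dvd_mul_right _ _)
  have h4 : K.map H.subtype ≤ P ⊓ H := by
    rintro _ ⟨x, hx, rfl⟩
    refine ⟨hmem x x.2 j ?_, x.2⟩
    have h5 : (⟨x, hx⟩ : K) ^ Nat.card K = 1 := pow_card_eq_one'
    rw [hK] at h5
    have h6 := congrArg Subtype.val h5
    have h7 := congrArg Subtype.val h6
    exact h7
  have h5 := Subgroup.card_dvd_of_le h4
  rw [Subgroup.card_map_of_injective H.subtype_injective, hK, hk] at h5
  rw [hk]
  exact Nat.dvd_antisymm h3 h5

theorem X4 (hX1 : X1_stmt) : X4_stmt := by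
  intro L Ω _ _ A h h2t c j hc hab
  have := h.finL
  have := h.finΩ
  have := h.faithful
  have hp3 : Fact (Nat.Prime 3) := ⟨Nat.prime_three⟩
  obtain ⟨c', b', j', -, hc3', hcard', -, -, -, -, -, hfix⟩ := hX1 L Ω A h h2t
  have hcc : c' = c := by
    have h1 : 3 ^ c' = 3 ^ c := by omega
    exact Nat.pow_right_injective (le_refl 2 |>.trans (by norm_num)) h1
  subst hcc
  have hc1 : c' = (c' - 1) + 1 := by omega
  have h3c : 3 ^ c' = 3 * 3 ^ (c' - 1) := by
    conv_lhs => rw [hc1]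
    rw [pow_succ, mul_comm]
  have hpos : 0 < 3 ^ (c' - 1) := pow_pos (by norm_num) _
  have hodd : Odd (3 ^ c') := Odd.pow (by decide)
  obtain ⟨r, hr⟩ := hodd
  set b : ℕ := (3 ^ c' - 1) / 2 with hb
  have hb2 : 2 * b + 1 = 3 ^ c' := by omega
  have hb3 : ¬ 3 ∣ b := by omega
  -- two points
  have hnt : 1 < Nat.card Ω := by omega
  have hΩ : Nontrivial Ω := Finite.one_lt_card_iff_nontrivial.1 hnt
  obtain ⟨α, β, hαβ⟩ := exists_pair_ne Ω
  obtain ⟨P, c₀, hPle, hc₀, hPp, hPn, hc₀3, hPgen⟩ := h.stab α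
  have hmem : ∀ g : L, g • α = α → ∀ m : ℕ, g ^ (3 ^ m) = 1 → g ∈ P := fun g hg m hm =>
    X4_mem _ P c₀ hPle hc₀ hPn hc₀3 hPgen g hg m hm
  -- the groups `H γ` and `I γ`
  have hHcard : ∀ γ : Ω, α ≠ γ →
      Nat.card (MulAction.stabilizer L α ⊓ MulAction.stabilizer L γ : Subgroup L) = 3 ^ j * b := by
    intro γ hγ
    rw [← hab α γ hγ]
    exact Nat.card_congr (Equiv.subtypeEquivRight fun g => Iff.rfl)
  have hIcard : ∀ γ : Ω, α ≠ γ →
      Nat.card (P ⊓ (MulAction.stabilizer L α ⊓ MulAction.stabilizer L γ) : Subgroup L) =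
        3 ^ j := by
    intro γ hγ
    exact X4_card _ P hPp
      (fun g (hg : g ∈ (MulAction.stabilizer L α ⊓ MulAction.stabilizer L γ : Subgroup L)) m hm =>
        hmem g hg.1 m hm) j b hb3 (hHcard γ hγ)
  set H : Subgroup L := MulAction.stabilizer L α ⊓ MulAction.stabilizer L β with hH
  set I : Subgroup L := P ⊓ H with hI
  have hIc : Nat.card I = 3 ^ j := hIcard β hαβ
  have hHc : Nat.card H = 3 ^ j * b := hHcard β hαβ
  have hIH : I ≤ H := inf_le_right
  -- for `γ` fixed by `I`: an element of `L_αγ` which is in `P` is in `I`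
  have hIeq : ∀ γ : Ω, α ≠ γ → (∀ i ∈ I, i • γ = γ) → ∀ g ∈ P, g • γ = γ → g ∈ I := by
    intro γ hγ hfixγ g hg hgγ
    have hle : I ≤ (P ⊓ (MulAction.stabilizer L α ⊓ MulAction.stabilizer L γ) : Subgroup L) := by
      intro i hi
      exact ⟨hi.1, hi.2.1, hfixγ i hi⟩
    have heq : I = (P ⊓ (MulAction.stabilizer L α ⊓ MulAction.stabilizer L γ) : Subgroup L) := by
      apply Subgroup.eq_of_le_of_card_ge hle
      rw [hIc, hIcard γ hγ]
    rw [heq]
    exact ⟨hg, hPle hg, hgγ⟩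
  -- the set of fixed points
  set F : Set Ω := {γ | ∀ i ∈ I, i • γ = γ} with hF
  have hαF : α ∈ F := fun i hi => hi.2.1
  have hβF : β ∈ F := fun i hi => hi.2.2
  -- `n = 1 mod 3`
  have hmod : Nat.card Ω ≡ Nat.card F [MOD 3] := by
    have hpI : IsPGroup 3 I := hPp.to_le inf_le_left
    have h1 := hpI.card_modEq_card_fixedPoints Ω
    have h2 : Nat.card (MulAction.fixedPoints I Ω) = Nat.card F := by
      apply Nat.card_congr
      apply Equiv.subtypeEquivRight
      intro γ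
      constructor
      · intro hγ i hi
        exact hγ ⟨i, hi⟩
      · intro hγ i
        exact hγ i i.2
    rwa [h2] at h1
  -- `H` normalises `I`
  have hHI : ∀ g ∈ H, ∀ i ∈ I, g * i * g⁻¹ ∈ I := by
    intro g hg i hi
    exact ⟨hPn g hg.1 i hi.1, H.mul_mem (H.mul_mem hg hi.2) (H.inv_mem hg)⟩
  -- the group `N`
  let N : Subgroup L :=
    { carrier := {g | g • α = α ∧ ∀ i : L, i ∈ I ↔ g * i * g⁻¹ ∈ I}
      one_mem' := ⟨one_smul _ _, fun i => by simp⟩
      mul_mem' := by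
        rintro g k ⟨hg1, hg2⟩ ⟨hk1, hk2⟩
        refine ⟨by rw [mul_smul, hk1, hg1], fun i => ?_⟩
        rw [hk2 i, hg2 (k * i * k⁻¹)]
        have : g * (k * i * k⁻¹) * g⁻¹ = g * k * i * (g * k)⁻¹ := by group
        rw [this]
      inv_mem' := by
        rintro g ⟨hg1, hg2⟩
        refine ⟨by rw [inv_smul_eq_iff, hg1], fun i => ?_⟩
        rw [hg2 (g⁻¹ * i * g⁻¹⁻¹)]
        have : g * (g⁻¹ * i * g⁻¹⁻¹) * g⁻¹ = i := by group
        rw [this] }
  have hNmem : ∀ g : L, g ∈ N ↔ g • α = α ∧ ∀ i : L, i ∈ I ↔ g * i * g⁻¹ ∈ I := fun g => Iff.rfl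
  have hHN : H ≤ N := by
    intro g hg
    refine ⟨hg.1, fun i => ⟨hHI g hg i, fun hi => ?_⟩⟩
    have h1 := hHI g⁻¹ (H.inv_mem hg) _ hi
    have h2 : g⁻¹ * (g * i * g⁻¹) * g⁻¹⁻¹ = i := by group
    rwa [h2] at h1
  have hNL : N ≤ MulAction.stabilizer L α := fun g hg => hg.1
  have horbN : MulAction.orbit N β = F \ {α} := by
    ext γ
    constructor
    · rintro ⟨⟨g, hg⟩, rfl⟩
      refine ⟨?_, ?_⟩
      · intro i hi
        show i • g • β = g • β
        have h1 : g⁻¹ * i * g ∈ I := by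
          rw [hg.2]
          have h2 : g * (g⁻¹ * i * g) * g⁻¹ = i := by group
          rwa [h2]
        have h2 : (g⁻¹ * i * g) • β = β := h1.2.2
        rw [mul_smul, mul_smul, inv_smul_eq_iff] at h2
        exact h2
      · intro h1
        have h2 : g • β = α := h1
        apply hαβ
        have h3 : g • β = g • α := by rw [h2, hg.1]
        exact (MulAction.injective g h3).symm
    · rintro ⟨hγF, hγα⟩
      have hαγ : α ≠ γ := fun hh => hγα hh.symm
      obtain ⟨g, hg1, hg2⟩ := h2t α β α γ hαβ hαγ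
      refine ⟨⟨g, ?_⟩, hg2⟩
      have hfwd : ∀ i ∈ I, g * i * g⁻¹ ∈ I := by
        intro i hi
        apply hIeq γ hαγ hγF _ (hPn g hg1 i hi.1)
        rw [mul_smul, mul_smul, ← hg2, inv_smul_smul]
        have : i • β = β := hi.2.2
        rw [this]
      refine ⟨hg1, fun i => ⟨hfwd i, fun hi => ?_⟩⟩
      have hgi : g⁻¹ • α = α := by rw [inv_smul_eq_iff, hg1]
      have h1 : i = g⁻¹ * (g * i * g⁻¹) * g⁻¹⁻¹ := by group
      have h2 : i ∈ P := by
        rw [h1]
        exact hPn g⁻¹ hgi _ hi.1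
      refine ⟨h2, hPle h2, ?_⟩
      have h3 : (g * i * g⁻¹) • γ = γ := hγF _ hi
      rw [← hg2, mul_smul, mul_smul, inv_smul_smul] at h3
      exact MulAction.injective g h3
  have horbL : MulAction.orbit (MulAction.stabilizer L α) β = {α}ᶜ := by
    ext γ
    constructor
    · rintro ⟨⟨g, hg⟩, rfl⟩ h1
      have h2 : g • β = α := h1
      apply hαβ
      have h3 : g • β = g • α := by rw [h2]; exact hg.symm
      exact (MulAction.injective g h3).symm
    · intro hγ
      have hαγ : α ≠ γ := fun hh => hγ hh.symm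
      obtain ⟨g, hg1, hg2⟩ := h2t α β α γ hαβ hαγ
      exact ⟨⟨g, hg1⟩, hg2⟩
  have hstab : ∀ K : Subgroup L, H ≤ K → K ≤ MulAction.stabilizer L α →
      Nat.card (MulAction.stabilizer K β) = Nat.card H := by
    intro K hHK hKL
    have h1 : (MulAction.stabilizer K β).map K.subtype = H := by
      ext g
      constructor
      · rintro ⟨x, hx, rfl⟩
        exact ⟨hKL x.2, hx⟩
      · intro hg
        exact ⟨⟨g, hHK hg⟩, hg.2, rfl⟩
    rw [← h1, Subgroup.card_map_of_injective K.subtype_injective]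
  have hNcard : (F \ {α}).ncard * Nat.card H = Nat.card N := by
    have e := Nat.card_congr (MulAction.orbitProdStabilizerEquivGroup N β)
    rw [Nat.card_prod, hstab N hHN hNL, horbN, Nat.card_coe_set_eq] at e
    exact e
  have hLcard : ({α}ᶜ : Set Ω).ncard * Nat.card H = Nat.card (MulAction.stabilizer L α) := by
    have e := Nat.card_congr (MulAction.orbitProdStabilizerEquivGroup (MulAction.stabilizer L α) β)
    rw [Nat.card_prod, hstab _ (inf_le_left) le_rfl, horbL, Nat.card_coe_set_eq] at e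
    exact e
  have hHpos : 0 < Nat.card H := Nat.card_pos
  have hdiv : (F \ {α}).ncard ∣ ({α}ᶜ : Set Ω).ncard := by
    have h1 : Nat.card N ∣ Nat.card (MulAction.stabilizer L α) := Subgroup.card_dvd_of_le hNL
    rw [← hNcard, ← hLcard] at h1
    exact Nat.dvd_of_mul_dvd_mul_right hHpos h1
  have hcompl : ({α}ᶜ : Set Ω).ncard = 3 ^ c' := by
    have h1 := Set.ncard_add_ncard_compl ({α} : Set Ω) (Set.toFinite _) (Set.toFinite _)
    rw [Set.ncard_singleton, hc] at h1
    omega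
  have hFα : (F \ {α}).ncard + 1 = F.ncard :=
    Set.ncard_sdiff_singleton_add_one hαF (Set.toFinite _)
  have hFβ : ((F \ {α}) \ {β}).ncard + 1 = (F \ {α}).ncard :=
    Set.ncard_sdiff_singleton_add_one ⟨hβF, fun hh => hαβ hh.symm⟩ (Set.toFinite _)
  -- the action of `H` on the other fixed points
  let Y : SubMulAction H Ω :=
    { carrier := (F \ {α}) \ {β}
      smul_mem' := by
        rintro ⟨g, hg⟩ γ ⟨⟨hγ1, hγ2⟩, hγ3⟩
        refine ⟨⟨?_, ?_⟩, ?_⟩
        · intro i hi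
          show i • g • γ = g • γ
          have h1 : g⁻¹ * i * g⁻¹⁻¹ ∈ I := hHI g⁻¹ (H.inv_mem hg) i hi
          rw [inv_inv] at h1
          have h2 : (g⁻¹ * i * g) • γ = γ := hγ1 _ h1
          rw [mul_smul, mul_smul, inv_smul_eq_iff] at h2
          exact h2
        · intro h1
          have h2 : g • γ = α := h1
          apply hγ2
          have h3 : g • γ = g • α := by rw [h2]; exact hg.1.symm
          exact MulAction.injective g h3
        · intro h1
          have h2 : g • γ = β := h1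
          apply hγ3
          have h3 : g • γ = g • β := by rw [h2]; exact hg.2.symm
          exact MulAction.injective g h3 }
  have hYcard : Nat.card Y = ((F \ {α}) \ {β}).ncard := rfl
  have hbY : b ∣ Nat.card Y := by
    apply X4_dvd H Y b
    rintro ⟨γ, ⟨⟨hγ1, hγ2⟩, hγ3⟩⟩
    have h1 : MulAction.stabilizer H (⟨γ, ⟨⟨hγ1, hγ2⟩, hγ3⟩⟩ : Y) = I.subgroupOf H := by
      ext ⟨g, hg⟩
      rw [MulAction.mem_stabilizer_iff, Subgroup.mem_subgroupOf]
      constructor
      · intro hh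
        have h2 : g • γ = γ := congrArg Subtype.val hh
        obtain ⟨m, hm⟩ := hfix g α β γ hαβ hγ2 hγ3 hg.1 hg.2 h2
        exact ⟨hmem g hg.1 m hm, hg⟩
      · intro hh
        apply Subtype.ext
        exact hγ1 g hh
    rw [h1]
    have h2 : Nat.card (I.subgroupOf H) = Nat.card I :=
      Nat.card_congr (Subgroup.subgroupOfEquivOfLe hIH).toEquiv
    have h3 := Subgroup.card_mul_index (I.subgroupOf H)
    rw [h2, hIc, hHc] at h3
    exact Nat.eq_of_mul_eq_mul_left (pow_pos (by norm_num) j) h3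
  -- arithmetic
  rw [hYcard] at hbY
  rw [hcompl] at hdiv
  rw [Nat.card_coe_set_eq, hc, Nat.ModEq] at hmod
  obtain ⟨k, hk⟩ := hbY
  obtain ⟨l, hl⟩ := hdiv
  have hn : (F \ {α}).ncard = 3 ^ c' := by
    have hk0 : k ≠ 0 := by
      rintro rfl
      rw [mul_zero] at hk
      omega
    have h1 : b ≤ b * k := Nat.le_mul_of_pos_right b (Nat.pos_of_ne_zero hk0)
    have hl1 : l = 1 := by
      have hl0 : l ≠ 0 := by
        rintro rfl
        rw [mul_zero] at hl
        omega
      by_contra hl1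
      have hl2 : 2 ≤ l := by omega
      have h2 : (F \ {α}).ncard * 2 ≤ (F \ {α}).ncard * l := Nat.mul_le_mul_left _ hl2
      omega
    rw [hl1, mul_one] at hl
    exact hl.symm
  have hFuniv : F = Set.univ := by
    apply (Set.eq_univ_iff_ncard F).2
    rw [hc]
    omega
  have hIbot : I = ⊥ := by
    rw [eq_bot_iff]
    intro i hi
    rw [Subgroup.mem_bot]
    apply FaithfulSMul.eq_of_smul_eq_smul (α := Ω)
    intro γ
    have h1 : γ ∈ F := by rw [hFuniv]; exact Set.mem_univ _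
    rw [one_smul]
    exact h1 i hi
  rw [hIbot, Subgroup.card_bot] at hIc
  by_contra hj
  have h1 : 1 < 3 ^ j := Nat.one_lt_pow hj (by norm_num)
  omega

end Pool.Agent.helper53.AU
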